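import Pool.Agent.P.MP_8b2bd9_co.Sharp
import Pool.Agent.P.MP_8b2bd9_co.Woodall

set_option autoImplicit false

namespace Pool.Agent.Results.MP_8b2bd9_co.RationalPlane

open Pool.Agent.P.MP_8b2bd9_co

lemma upper (X : Set (EuclideanSpace ℝ (Fin 2))) (hQ : ∀ x ∈ X, ∀ i, ∃ q : ℚ, x i = q)
    (S : Finset ℝ) (hS : ∀ s ∈ S, 0 < s) :
    ((SimpleGraph.fromRel fun x y : EuclideanSpace ℝ (Fin 2) => dist x y ∈ S).induce
      X).chromaticNumber ≤ 2 ^ S.card := by
  classical
  choose q hq using hQ
  have hw := fun s : S => woodall ((s : ℝ) ^ 2) (pow_pos (hS s s.2) 2)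
  choose c hc using hw
  let C : ((SimpleGraph.fromRel fun x y : EuclideanSpace ℝ (Fin 2) => dist x y ∈ S).induce
      X).Coloring (S → ZMod 2) :=
    SimpleGraph.Coloring.mk (fun x s => c s (q x x.2 0, q x x.2 1)) (by
      intro x y hxy h
      simp only [SimpleGraph.comap_adj, SimpleGraph.fromRel_adj, Function.Embedding.coe_subtype]
        at hxy
      have hd : dist (x : EuclideanSpace ℝ (Fin 2)) y ∈ S := by
        rcases hxy.2 with h | h
        · exact h
        · rwa [dist_comm]
      refine hc ⟨_, hd⟩ _ _ ?_ (congrFun h ⟨_, hd⟩)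
      simp only
      rw [EuclideanSpace.dist_eq, Real.sq_sqrt (Finset.sum_nonneg fun _ _ => sq_nonneg _),
        Fin.sum_univ_two, Real.dist_eq, Real.dist_eq, sq_abs, sq_abs, hq x x.2 0, hq x x.2 1,
        hq y y.2 0, hq y y.2 1]
      push_cast
      rfl)
  have := C.colorable.chromaticNumber_le
  simpa [ZMod.card] using this

/-- For every set `X` of points of the plane with `ℤ² ⊆ X ⊆ ℚ²`, the largest chromatic number of
the graph on `X` given by `r` forbidden distances is exactly `2 ^ r`. -/
theorem result (r : ℕ) (X : Set (EuclideanSpace ℝ (Fin 2)))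
    (hZ : ∀ x : EuclideanSpace ℝ (Fin 2), (∀ i, ∃ z : ℤ, x i = z) → x ∈ X)
    (hQ : ∀ x ∈ X, ∀ i, ∃ q : ℚ, x i = q) :
    IsGreatest {k : ℕ∞ | ∃ S : Finset ℝ, S.card = r ∧ (∀ s ∈ S, 0 < s) ∧
      k = ((SimpleGraph.fromRel fun x y : EuclideanSpace ℝ (Fin 2) => dist x y ∈ S).induce
        X).chromaticNumber} (2 ^ r) := by
  classical
  refine ⟨?_, ?_⟩
  · obtain ⟨s, hs, h⟩ := colour_bound_lattice r
    set S : Finset ℝ := (Finset.range r).image s with hSd
    have hS : ∀ t ∈ S, 0 < t := by
      intro t ht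
      obtain ⟨i, -, rfl⟩ := Finset.mem_image.1 ht
      exact hs i
    have hcard : S.card ≤ r := Finset.card_image_le.trans (by simp)
    have hup := upper X hQ S hS
    have low : ∀ m : ℕ, ((SimpleGraph.fromRel fun x y : EuclideanSpace ℝ (Fin 2) =>
        dist x y ∈ S).induce X).Colorable m → 2 ^ r ≤ m := by
      rintro m ⟨c⟩
      let e : ℤ × ℤ → X := fun p =>
        ⟨Complex.orthonormalBasisOneI.repr ((p.1 : ℂ) + p.2 * Complex.I), hZ _ (by
          intro i
          fin_cases i
          · exact ⟨p.1, by simp⟩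
          · exact ⟨p.2, by simp⟩)⟩
      refine h m (fun p => c (e p)) fun p q i hi hn => c.valid ?_
      simp only [SimpleGraph.comap_adj, SimpleGraph.fromRel_adj, Function.Embedding.coe_subtype]
      have e1 : dist (e p : EuclideanSpace ℝ (Fin 2)) (e q) = s i := by
        simp only [e]
        rw [LinearIsometryEquiv.dist_map, dist_eq_norm, hn]
      refine ⟨fun h0 => ?_, Or.inl ?_⟩
      · rw [h0, dist_self] at e1
        exact (hs i).ne e1
      · rw [e1]
        exact Finset.mem_image_of_mem _ (Finset.mem_range.2 hi)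
    have hr : S.card = r := by
      have h1 : ((SimpleGraph.fromRel fun x y : EuclideanSpace ℝ (Fin 2) =>
          dist x y ∈ S).induce X).Colorable (2 ^ S.card) := by
        rw [← SimpleGraph.chromaticNumber_le_iff_colorable]
        exact_mod_cast hup
      have := (Nat.pow_le_pow_iff_right (by norm_num : 1 < 2)).1 (low _ h1)
      omega
    refine ⟨S, hr, hS, le_antisymm ?_ (hr ▸ hup)⟩
    have := SimpleGraph.le_chromaticNumber_iff_colorable.2 low
    exact_mod_cast this
  · rintro k ⟨S, rfl, hS, rfl⟩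
    exact upper X hQ S hS

end Pool.Agent.Results.MP_8b2bd9_co.RationalPlane
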